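import Mathlib
import Pool.Agent.Helper92_LUR.Defs

set_option autoImplicit false
open Filter Topology Set

namespace LUR.H46

theorem rank1 : LUR.RANK1 := by
  intro K _ Φ I W hΦ hA hW hdisj
  classical
  let e : Set K → Ordinal.{0} := fun N => Ordinal.typein (WellOrderingRel : Set K → Set K → Prop) N
  have he : Function.Injective e := Ordinal.typein_injective _
  set τ : Ordinal.{0} := Ordinal.type (WellOrderingRel : Set K → Set K → Prop) with hτ
  have hlt : ∀ N, e N < τ := fun N => Ordinal.typein_lt_type _ N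
  have huniq : ∀ N ∈ I, ∀ M ∈ I, ∀ x, x ∈ W N → x ∈ W M → N = M := by
    intro N hN M hM x h1 h2
    by_contra hne
    exact Set.disjoint_left.1 (hdisj N hN M hM hne) h1 h2
  let r : K → Ordinal.{0} := fun x =>
    if x ∈ Φ then (if h : ∃ N ∈ I, x ∈ W N then Order.succ (e h.choose) else Order.succ τ) else 0
  have r0 : ∀ x, x ∉ Φ → r x = 0 := fun x hx => if_neg hx
  have r1 : ∀ N ∈ I, ∀ x ∈ W N, r x = Order.succ (e N) := by
    intro N hN x hx
    have h : ∃ N ∈ I, x ∈ W N := ⟨N, hN, hx⟩
    have h1 : h.choose = N :=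
      huniq _ h.choose_spec.1 _ hN x h.choose_spec.2 hx
    show (if x ∈ Φ then (if h : ∃ N ∈ I, x ∈ W N then Order.succ (e h.choose) else Order.succ τ)
      else 0) = _
    rw [if_pos (hW N hN hx), dif_pos h, h1]
  have r2 : ∀ x ∈ Φ, (¬ ∃ N ∈ I, x ∈ W N) → r x = Order.succ τ := by
    intro x hx h
    show (if x ∈ Φ then (if h : ∃ N ∈ I, x ∈ W N then Order.succ (e h.choose) else Order.succ τ)
      else 0) = _
    rw [if_pos hx, dif_neg h]
  refine ⟨r, ?_, ?_⟩
  · intro a
    by_cases ha0 : a = 0
    · subst ha0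
      simp
    by_cases ha1 : a ≤ Order.succ τ
    · have h := hA {N | N ∈ I ∧ Order.succ (e N) < a} (fun N hN => hN.1)
      convert h using 1
      ext x
      simp only [Set.mem_setOf_eq, Set.mem_diff, Set.mem_iUnion, exists_prop, not_exists]
      constructor
      · intro hx
        by_cases hxΦ : x ∈ Φ
        · refine ⟨hxΦ, fun N hN => ?_⟩
          rw [r1 N hN.1.1 x hN.2] at hx
          exact absurd hx (not_le.2 hN.1.2)
        · rw [r0 x hxΦ] at hx
          exact absurd (le_antisymm hx zero_le) ha0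
      · rintro ⟨hxΦ, hx⟩
        by_cases hxW : ∃ N ∈ I, x ∈ W N
        · obtain ⟨N, hN, hxN⟩ := hxW
          rw [r1 N hN x hxN]
          by_contra hlt'
          exact hx N ⟨⟨hN, not_le.1 hlt'⟩, hxN⟩
        · rw [r2 x hxΦ hxW]
          exact ha1
    · have h : {x | a ≤ r x} = ∅ := by
        rw [Set.eq_empty_iff_forall_notMem]
        intro x hx
        have hx' : a ≤ r x := hx
        apply ha1
        refine hx'.trans ?_
        by_cases hxΦ : x ∈ Φ
        · by_cases hxW : ∃ N ∈ I, x ∈ W N
          · obtain ⟨N, hN, hxN⟩ := hxW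
            rw [r1 N hN x hxN]
            exact Order.succ_le_succ (hlt N).le
          · rw [r2 x hxΦ hxW]
        · rw [r0 x hxΦ]
          exact zero_le
      rw [h]
      exact isClosed_empty
  · intro x y hxy N hN hx
    rw [r1 N hN x hx] at hxy
    by_cases hyΦ : y ∈ Φ
    · by_cases hyW : ∃ M ∈ I, y ∈ W M
      · obtain ⟨M, hM, hyM⟩ := hyW
        rw [r1 M hM y hyM] at hxy
        have := he (Order.succ_injective hxy)
        rw [this]
        exact hyM
      · rw [r2 y hyΦ hyW] at hxy
        exact absurd (Order.succ_injective hxy) (hlt N).ne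
    · rw [r0 y hyΦ] at hxy
      exact absurd hxy (Order.succ_ne_bot _)

end LUR.H46
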