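import Mathlib
import Pool.Agent.Helper92_LUR.Defs

set_option autoImplicit false
open Filter Topology Set

namespace LUR.H46

theorem sumn (h1 : LUR.SQ1) (h2 : LUR.SQ2) : LUR.SUMN := by
  intro X _ _ q hq hB
  choose B hB using hB
  obtain ⟨s_add, s_mul, s_sq, _, s_tsum⟩ := h1 X
  obtain ⟨s_root, s_nonneg, _⟩ := h2 X
  set c : ℕ → ℝ := fun i => (1 / 2) ^ i / (1 + |B i|) with hc
  have hcpos : ∀ i, 0 < c i := fun i => by
    have : 0 < 1 + |B i| := by positivity
    positivity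
  have hle : ∀ i f, c i * q i f ≤ (1 / 2) ^ i * ‖f‖ ^ 2 := by
    intro i f
    have h3 : 0 < 1 + |B i| := by positivity
    have h4 : q i f ≤ (1 + |B i|) * ‖f‖ ^ 2 := by
      refine (hB i f).trans ?_
      apply mul_le_mul_of_nonneg_right _ (by positivity)
      have := le_abs_self (B i)
      linarith
    rw [hc]
    show (1 / 2) ^ i / (1 + |B i|) * q i f ≤ _
    rw [div_mul_eq_mul_div, div_le_iff₀ h3]
    have h5 : (0 : ℝ) < (1 / 2) ^ i := by positivity
    nlinarith
  have hnn : ∀ i f, 0 ≤ c i * q i f := fun i f => mul_nonneg (hcpos i).le ((hq i).nonneg f)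
  have hgeo : ∀ f : X, Summable (fun i : ℕ => (1 / 2 : ℝ) ^ i * ‖f‖ ^ 2) := fun f =>
    summable_geometric_two.mul_right _
  have hsum : ∀ f, Summable (fun i => c i * q i f) := fun f =>
    Summable.of_nonneg_of_le (fun i => hnn i f) (fun i => hle i f) (hgeo f)
  have hN : Smn (fun f : X => ‖f‖) :=
    { nonneg := fun f => norm_nonneg f
      smul := fun t f => by rw [norm_smul, Real.norm_eq_abs]
      add := fun f g => norm_add_le f g }
  have hN2 : SqS (fun f : X => ‖f‖ ^ 2) := s_sq _ hN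
  have hS : SqS (fun f => ∑' i, c i * q i f) :=
    s_tsum (fun i f => c i * q i f) (fun i => s_mul _ _ (hcpos i).le (hq i)) hsum
  have hQ : SqS (fun f => ‖f‖ ^ 2 + ∑' i, c i * q i f) := s_add _ _ hN2 hS
  obtain ⟨p, hp⟩ := s_root _ hQ
  have hp2 : ∀ f, p f ^ 2 = ‖f‖ ^ 2 + ∑' i, c i * q i f := fun f => by
    rw [hp f, Real.sq_sqrt (hQ.nonneg f)]
  have hS0 : ∀ f, 0 ≤ ∑' i, c i * q i f := fun f => tsum_nonneg fun i => hnn i f
  have hS2 : ∀ f, ∑' i, c i * q i f ≤ 2 * ‖f‖ ^ 2 := by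
    intro f
    have h3 : ∑' i, c i * q i f ≤ ∑' i : ℕ, (1 / 2 : ℝ) ^ i * ‖f‖ ^ 2 :=
      Summable.tsum_le_tsum (fun i => hle i f) (hsum f) (hgeo f)
    rw [tsum_mul_right, tsum_geometric_two] at h3
    exact h3
  refine ⟨p, ⟨1, 2, one_pos, two_pos, fun f => ⟨?_, ?_⟩⟩, ?_⟩
  · rw [one_mul]
    apply le_of_sq_le_sq _ (apply_nonneg p f)
    rw [hp2]
    linarith [hS0 f]
  · apply le_of_sq_le_sq _ (by positivity)
    rw [hp2, mul_pow]
    have h3 := hS2 f
    have h4 : 0 ≤ ‖f‖ ^ 2 := by positivity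
    linarith
  · intro f u hu1 hu2 i
    have hDl : ∀ g, c i * Dl (q i) f g ≤ 2 * p f ^ 2 + 2 * p g ^ 2 - p (g + f) ^ 2 := by
      intro g
      have h3 : 0 ≤ Dl (fun h : X => ‖h‖ ^ 2) f g := s_nonneg _ hN2 f g
      have h4 : HasSum (fun j => c j * Dl (q j) f g)
          (2 * ∑' j, c j * q j f + 2 * ∑' j, c j * q j g - ∑' j, c j * q j (f + g)) := by
        have h5 := (((hsum f).hasSum.mul_left 2).add ((hsum g).hasSum.mul_left 2)).sub
          (hsum (f + g)).hasSum
        have h6 : (fun j => c j * Dl (q j) f g) =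
            fun j => 2 * (c j * q j f) + 2 * (c j * q j g) - c j * q j (f + g) := by
          funext j
          unfold Dl
          ring
        rw [h6]
        exact h5
      have h7 : c i * Dl (q i) f g ≤
          2 * ∑' j, c j * q j f + 2 * ∑' j, c j * q j g - ∑' j, c j * q j (f + g) := by
        apply le_hasSum h4 i
        intro j _
        exact mul_nonneg (hcpos j).le (s_nonneg _ (hq j) f g)
      rw [hp2, hp2, hp2, add_comm g f]
      have h8 : Dl (fun h : X => ‖h‖ ^ 2) f g = 2 * ‖f‖ ^ 2 + 2 * ‖g‖ ^ 2 - ‖f + g‖ ^ 2 := rfl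
      rw [h8] at h3
      linarith
    have hlim : Tendsto (fun n => (2 * p f ^ 2 + 2 * p (u n) ^ 2 - p (u n + f) ^ 2) / c i) atTop
        (𝓝 0) := by
      have h3 : Tendsto (fun n => (2 * p f ^ 2 + 2 * p (u n) ^ 2 - p (u n + f) ^ 2) / c i) atTop
          (𝓝 ((2 * p f ^ 2 + 2 * p f ^ 2 - (2 * p f) ^ 2) / c i)) :=
        ((tendsto_const_nhds.add ((hu1.pow 2).const_mul 2)).sub (hu2.pow 2)).div_const _
      have h4 : (2 * p f ^ 2 + 2 * p f ^ 2 - (2 * p f) ^ 2) / c i = 0 := by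
        rw [mul_pow]
        ring
      rw [h4] at h3
      exact h3
    apply tendsto_of_tendsto_of_tendsto_of_le_of_le tendsto_const_nhds hlim
    · intro n
      exact s_nonneg _ (hq i) f (u n)
    · intro n
      show Dl (q i) f (u n) ≤ _
      rw [le_div_iff₀ (hcpos i), mul_comm]
      exact hDl (u n)

end LUR.H46
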